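import Pool.Agent.TH179.SD.Geo

/-!
# SD-G4: a global frame of `S³ × S⁵` in coordinates
-/

open scoped ContDiff Topology
open Set

noncomputable section

namespace Pool.Agent.TH348.SD
open Pool.Agent.TH179.SD

/-! ### Smoothness of coordinates -/

@[fun_prop]
theorem cd_re (n : WithTop ℕ∞) (i : Fin 4) : ContDiff ℝ n (fun w : V => (w i).re) :=
  (Complex.reCLM.comp (ContinuousLinearMap.proj (R := ℝ) (φ := fun _ : Fin 4 => ℂ) i)).contDiff

@[fun_prop]
theorem cd_im (n : WithTop ℕ∞) (i : Fin 4) : ContDiff ℝ n (fun w : V => (w i).im) :=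
  (Complex.imCLM.comp (ContinuousLinearMap.proj (R := ℝ) (φ := fun _ : Fin 4 => ℂ) i)).contDiff

theorem cd_na (n : WithTop ℕ∞) : ContDiff ℝ n na := by
  unfold na
  fun_prop

theorem cd_nb (n : WithTop ℕ∞) : ContDiff ℝ n nb := by
  unfold nb
  fun_prop

theorem na_nonneg (w : V) : 0 ≤ na w := by unfold na; positivity
theorem nb_nonneg (w : V) : 0 ≤ nb w := by unfold nb; positivity

theorem cd_ia (n : WithTop ℕ∞) : ContDiff ℝ n (fun w => (1 + na w)⁻¹) :=
  (contDiff_const.add (cd_na n)).inv fun w => by have := na_nonneg w; positivity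

theorem cd_ib (n : WithTop ℕ∞) : ContDiff ℝ n (fun w => (1 + nb w)⁻¹) :=
  (contDiff_const.add (cd_nb n)).inv fun w => by have := nb_nonneg w; positivity

attribute [local fun_prop] cd_na cd_nb cd_ia cd_ib

/-- the parametrisation -/
def X (e d : ℝ) (w : V) : Fin 10 → ℝ :=
  ![2 * e * (w 0).re * (1 + na w)⁻¹, 2 * (w 0).im * (1 + na w)⁻¹, 2 * (w 1).re * (1 + na w)⁻¹,
    e * (1 - na w) * (1 + na w)⁻¹,
    2 * (w 1).im * (1 + nb w)⁻¹, 2 * d * (w 2).re * (1 + nb w)⁻¹, 2 * (w 2).im * (1 + nb w)⁻¹,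
    2 * (w 3).re * (1 + nb w)⁻¹, 2 * (w 3).im * (1 + nb w)⁻¹,
    d * (1 - nb w) * (1 + nb w)⁻¹]

theorem cd_X (n : WithTop ℕ∞) (e d : ℝ) : ContDiff ℝ n (X e d) := by
  have hia := cd_ia n
  have hib := cd_ib n
  have ha := cd_na n
  have hb := cd_nb n
  rw [contDiff_pi]
  intro i
  fin_cases i <;> simp only [X] <;> dsimp <;> fun_prop

/-- real coordinates to `V` -/
def mkL : (Fin 8 → ℝ) →ₗ[ℝ] V where
  toFun r := ![⟨r 0, r 1⟩, ⟨r 2, r 3⟩, ⟨r 4, r 5⟩, ⟨r 6, r 7⟩]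
  map_add' r s := by
    ext i
    fin_cases i <;> apply Complex.ext <;> simp
  map_smul' t r := by
    ext i
    fin_cases i <;> apply Complex.ext <;> simp

def mk : (Fin 8 → ℝ) →L[ℝ] V := LinearMap.toContinuousLinearMap mkL

theorem mk_apply (r : Fin 8 → ℝ) : mk r = ![⟨r 0, r 1⟩, ⟨r 2, r 3⟩, ⟨r 4, r 5⟩, ⟨r 6, r 7⟩] := rfl

/-- the linear maps from the tangent spaces -/
def tau8 (p u : Fin 10 → ℝ) : Fin 8 → ℝ :=
  ![p 3 * u 0 - u 3 * p 0 - (p 1 * u 2 - p 2 * u 1),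
    p 3 * u 1 - u 3 * p 1 - (p 2 * u 0 - p 0 * u 2),
    u 4 + (p 3 * u 2 - u 3 * p 2 - (p 0 * u 1 - p 1 * u 0)) * p 4,
    u 5 + (p 3 * u 2 - u 3 * p 2 - (p 0 * u 1 - p 1 * u 0)) * p 5,
    u 6 + (p 3 * u 2 - u 3 * p 2 - (p 0 * u 1 - p 1 * u 0)) * p 6,
    u 7 + (p 3 * u 2 - u 3 * p 2 - (p 0 * u 1 - p 1 * u 0)) * p 7,
    u 8 + (p 3 * u 2 - u 3 * p 2 - (p 0 * u 1 - p 1 * u 0)) * p 8,
    u 9 + (p 3 * u 2 - u 3 * p 2 - (p 0 * u 1 - p 1 * u 0)) * p 9]

def tauL (p : Fin 10 → ℝ) : (Fin 10 → ℝ) →ₗ[ℝ] (Fin 8 → ℝ) where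
  toFun u := tau8 p u
  map_add' u v := by
    ext i
    fin_cases i <;> simp [tau8] <;> ring
  map_smul' t u := by
    ext i
    fin_cases i <;> simp [tau8] <;> ring

def tau (p : Fin 10 → ℝ) : (Fin 10 → ℝ) →L[ℝ] V :=
  mk.comp (LinearMap.toContinuousLinearMap (tauL p))

theorem tau_apply (p u : Fin 10 → ℝ) : tau p u = mk (tau8 p u) := rfl

/-- the unnormalised frame -/
def T0 (e d : ℝ) (w : V) : V →L[ℝ] V := (tau (X e d w)).comp (fderiv ℝ (X e d) w)

theorem cd_T0 (e d : ℝ) : ContDiff ℝ ∞ (T0 e d) := by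
  rw [contDiff_clm_apply_iff]
  intro u
  have h1 : ContDiff ℝ ∞ (fun w => fderiv ℝ (X e d) w u) :=
    ((cd_X ∞ e d).fderiv_right (m := ∞) (by simp)).clm_apply contDiff_const
  have h2 : ∀ i, ContDiff ℝ ∞ (fun w => X e d w i) := fun i => (contDiff_pi.1 (cd_X ∞ e d)) i
  have h3 : ∀ i, ContDiff ℝ ∞ (fun w => fderiv ℝ (X e d) w u i) := fun i => (contDiff_pi.1 h1) i
  have h4 : ContDiff ℝ ∞ (fun w => tau8 (X e d w) (fderiv ℝ (X e d) w u)) := by
    rw [contDiff_pi]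
    intro i
    fin_cases i <;> simp only [tau8] <;> dsimp <;> fun_prop
  exact mk.contDiff.comp h4

/-! ### Identities -/

theorem mk_zero {r : Fin 8 → ℝ} (h : mk r = 0) : r = 0 := by
  rw [mk_apply] at h
  have h0 := congrFun h 0
  have h1 := congrFun h 1
  have h2 := congrFun h 2
  have h3 := congrFun h 3
  ext i
  fin_cases i
  · simpa using congrArg Complex.re h0
  · simpa using congrArg Complex.im h0
  · simpa using congrArg Complex.re h1
  · simpa using congrArg Complex.im h1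
  · simpa using congrArg Complex.re h2
  · simpa using congrArg Complex.im h2
  · simpa using congrArg Complex.re h3
  · simpa using congrArg Complex.im h3

/-- the two quadratic forms -/
def q1 (p : Fin 10 → ℝ) : ℝ := p 0 ^ 2 + p 1 ^ 2 + p 2 ^ 2 + p 3 ^ 2
def q2 (p : Fin 10 → ℝ) : ℝ := p 4 ^ 2 + p 5 ^ 2 + p 6 ^ 2 + p 7 ^ 2 + p 8 ^ 2 + p 9 ^ 2

theorem q1_X {e d : ℝ} (he : e * e = 1) (w : V) : q1 (X e d w) = 1 := by
  have h := na_nonneg w
  have h1 : (1 + na w) ≠ 0 := by positivity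
  have h2 : (w 0).re ^ 2 + (w 0).im ^ 2 + (w 1).re ^ 2 = na w := rfl
  simp only [q1, X]
  dsimp
  have h3 : (1 + na w)⁻¹ * (1 + na w) = 1 := inv_mul_cancel₀ h1
  generalize (1 + na w)⁻¹ = z at *
  generalize na w = n at *
  have : (2 * e * (w 0).re * z) ^ 2 + (2 * (w 0).im * z) ^ 2 + (2 * (w 1).re * z) ^ 2 +
      (e * (1 - n) * z) ^ 2 = (z * (1 + n)) ^ 2 + 4 * z ^ 2 * (((w 0).re ^ 2 + (w 0).im ^ 2 + (w 1).re ^ 2) - n)
        + (e * e - 1) * ((2 * (w 0).re * z) ^ 2 + ((1 - n) * z) ^ 2) := by ring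
  rw [this, h3, h2, he]
  ring

theorem q2_X {e d : ℝ} (hd : d * d = 1) (w : V) : q2 (X e d w) = 1 := by
  have h := nb_nonneg w
  have h1 : (1 + nb w) ≠ 0 := by positivity
  have h2 : (w 1).im ^ 2 + (w 2).re ^ 2 + (w 2).im ^ 2 + (w 3).re ^ 2 + (w 3).im ^ 2 = nb w := rfl
  simp only [q2, X]
  dsimp
  have h3 : (1 + nb w)⁻¹ * (1 + nb w) = 1 := inv_mul_cancel₀ h1
  generalize (1 + nb w)⁻¹ = z at *
  generalize nb w = n at *
  have : (2 * (w 1).im * z) ^ 2 + (2 * d * (w 2).re * z) ^ 2 + (2 * (w 2).im * z) ^ 2 +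
      (2 * (w 3).re * z) ^ 2 + (2 * (w 3).im * z) ^ 2 + (d * (1 - n) * z) ^ 2 =
      (z * (1 + n)) ^ 2 + 4 * z ^ 2 * (((w 1).im ^ 2 + (w 2).re ^ 2 + (w 2).im ^ 2 + (w 3).re ^ 2 + (w 3).im ^ 2) - n)
        + (d * d - 1) * ((2 * (w 2).re * z) ^ 2 + ((1 - n) * z) ^ 2) := by ring
  rw [this, h3, h2, hd]
  ring

/-- derivative of the components -/
theorem hasF (e d : ℝ) (w : V) (i : Fin 10) :
    HasFDerivAt (fun w => X e d w i)
      ((ContinuousLinearMap.proj (R := ℝ) (φ := fun _ : Fin 10 => ℝ) i).comp (fderiv ℝ (X e d) w)) w := by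
  have h := ((cd_X 1 e d).differentiable (by simp) w).hasFDerivAt
  exact (hasFDerivAt_pi'.1 h) i

theorem tang1 {e d : ℝ} (he : e * e = 1) (w u : V) :
    X e d w 0 * fderiv ℝ (X e d) w u 0 + X e d w 1 * fderiv ℝ (X e d) w u 1 +
      X e d w 2 * fderiv ℝ (X e d) w u 2 + X e d w 3 * fderiv ℝ (X e d) w u 3 = 0 := by
  have h := (((hasF e d w 0).pow 2).add ((hasF e d w 1).pow 2)).add ((hasF e d w 2).pow 2) |>.add
    ((hasF e d w 3).pow 2)
  have h2 : HasFDerivAt (fun w => X e d w 0 ^ 2 + X e d w 1 ^ 2 + X e d w 2 ^ 2 + X e d w 3 ^ 2)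
      (0 : V →L[ℝ] ℝ) w := by
    have : (fun w => X e d w 0 ^ 2 + X e d w 1 ^ 2 + X e d w 2 ^ 2 + X e d w 3 ^ 2) =
        fun _ => (1 : ℝ) := by
      ext w
      exact q1_X he w
    rw [this]
    exact hasFDerivAt_const _ _
  have h3 := congrArg (fun f : V →L[ℝ] ℝ => f u) (h.unique h2)
  simp at h3
  linarith

theorem tang2 {e d : ℝ} (hd : d * d = 1) (w u : V) :
    X e d w 4 * fderiv ℝ (X e d) w u 4 + X e d w 5 * fderiv ℝ (X e d) w u 5 +
      X e d w 6 * fderiv ℝ (X e d) w u 6 + X e d w 7 * fderiv ℝ (X e d) w u 7 +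
      X e d w 8 * fderiv ℝ (X e d) w u 8 + X e d w 9 * fderiv ℝ (X e d) w u 9 = 0 := by
  have h := ((((hasF e d w 4).pow 2).add ((hasF e d w 5).pow 2)).add ((hasF e d w 6).pow 2) |>.add
    ((hasF e d w 7).pow 2)).add ((hasF e d w 8).pow 2) |>.add ((hasF e d w 9).pow 2)
  have h2 : HasFDerivAt (fun w => X e d w 4 ^ 2 + X e d w 5 ^ 2 + X e d w 6 ^ 2 + X e d w 7 ^ 2 +
      X e d w 8 ^ 2 + X e d w 9 ^ 2) (0 : V →L[ℝ] ℝ) w := by
    have : (fun w => X e d w 4 ^ 2 + X e d w 5 ^ 2 + X e d w 6 ^ 2 + X e d w 7 ^ 2 +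
      X e d w 8 ^ 2 + X e d w 9 ^ 2) = fun _ => (1 : ℝ) := by
      ext w
      exact q2_X hd w
    rw [this]
    exact hasFDerivAt_const _ _
  have h3 := congrArg (fun f : V →L[ℝ] ℝ => f u) (h.unique h2)
  simp at h3
  linarith

theorem tau_inj {e d : ℝ} (he : e * e = 1) (hd : d * d = 1) (w u : V)
    (h : T0 e d w u = 0) : fderiv ℝ (X e d) w u = 0 := by
  have h0 : tau8 (X e d w) (fderiv ℝ (X e d) w u) = 0 := mk_zero h
  have t1 := tang1 (d := d) he w u
  have t2 := tang2 (e := e) hd w u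
  have n1 := q1_X (d := d) he w
  have n2 := q2_X (e := e) hd w
  simp only [q1, q2] at n1 n2
  generalize X e d w = p at *
  generalize fderiv ℝ (X e d) w u = v at *
  have e0 := congrFun h0 0
  have e1 := congrFun h0 1
  have e2 := congrFun h0 2
  have e3 := congrFun h0 3
  have e4 := congrFun h0 4
  have e5 := congrFun h0 5
  have e6 := congrFun h0 6
  have e7 := congrFun h0 7
  simp only [tau8] at e0 e1 e2 e3 e4 e5 e6 e7
  dsimp at e0 e1 e2 e3 e4 e5 e6 e7
  have s3 : (p 3 * v 2 - v 3 * p 2 - (p 0 * v 1 - p 1 * v 0)) = 0 := by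
    generalize (p 3 * v 2 - v 3 * p 2 - (p 0 * v 1 - p 1 * v 0)) = s at *
    have : s * (p 4 ^ 2 + p 5 ^ 2 + p 6 ^ 2 + p 7 ^ 2 + p 8 ^ 2 + p 9 ^ 2) = 0 := by
      linear_combination p 4 * e2 + p 5 * e3 + p 6 * e4 + p 7 * e5 + p 8 * e6 + p 9 * e7 - t2
    rwa [n2, mul_one] at this
  rw [s3] at e2 e3 e4 e5 e6 e7
  simp only [zero_mul, add_zero] at e2 e3 e4 e5 e6 e7
  have key : v 0 ^ 2 + v 1 ^ 2 + v 2 ^ 2 + v 3 ^ 2 = 0 := by
    have h5 : (p 0 ^ 2 + p 1 ^ 2 + p 2 ^ 2 + p 3 ^ 2) * (v 0 ^ 2 + v 1 ^ 2 + v 2 ^ 2 + v 3 ^ 2) =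
      (p 3 * v 0 - v 3 * p 0 - (p 1 * v 2 - p 2 * v 1)) ^ 2 +
      (p 3 * v 1 - v 3 * p 1 - (p 2 * v 0 - p 0 * v 2)) ^ 2 +
      (p 3 * v 2 - v 3 * p 2 - (p 0 * v 1 - p 1 * v 0)) ^ 2 +
      (p 0 * v 0 + p 1 * v 1 + p 2 * v 2 + p 3 * v 3) ^ 2 := by ring
    rw [n1, e0, e1, s3, t1] at h5
    linarith
  have v0 : v 0 = 0 := by
    have : v 0 ^ 2 = 0 := by linarith [sq_nonneg (v 0), sq_nonneg (v 1), sq_nonneg (v 2), sq_nonneg (v 3)]
    exact pow_eq_zero_iff (two_ne_zero) |>.1 this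
  have v1 : v 1 = 0 := by
    have : v 1 ^ 2 = 0 := by linarith [sq_nonneg (v 0), sq_nonneg (v 1), sq_nonneg (v 2), sq_nonneg (v 3)]
    exact pow_eq_zero_iff (two_ne_zero) |>.1 this
  have v2 : v 2 = 0 := by
    have : v 2 ^ 2 = 0 := by linarith [sq_nonneg (v 0), sq_nonneg (v 1), sq_nonneg (v 2), sq_nonneg (v 3)]
    exact pow_eq_zero_iff (two_ne_zero) |>.1 this
  have v3 : v 3 = 0 := by
    have : v 3 ^ 2 = 0 := by linarith [sq_nonneg (v 0), sq_nonneg (v 1), sq_nonneg (v 2), sq_nonneg (v 3)]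
    exact pow_eq_zero_iff (two_ne_zero) |>.1 this
  ext i
  fin_cases i <;> simp <;> assumption

/-! ### Injectivity -/

theorem coord_zero (c : V →L[ℝ] ℝ) (f g : V → ℝ) (f' g' : V →L[ℝ] ℝ) (w u : V)
    (hf : HasFDerivAt f f' w) (hg : HasFDerivAt g g' w) (hfu : f' u = 0) (hgu : g' u = 0)
    (h : ∀ w, f w * c w = g w) (hw : f w ≠ 0) : c u = 0 := by
  have h1 := hf.mul (c.hasFDerivAt (x := w))
  have h2 : (f * ⇑c) = g := by
    ext y
    exact h y
  rw [h2] at h1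
  have h3 := congrArg (fun f : V →L[ℝ] ℝ => f u) (h1.unique hg)
  simp [hfu, hgu] at h3
  rcases h3 with h3 | h3
  · exact absurd h3 hw
  · exact h3

def cre (i : Fin 4) : V →L[ℝ] ℝ :=
  Complex.reCLM.comp (ContinuousLinearMap.proj (R := ℝ) (φ := fun _ : Fin 4 => ℂ) i)
def cim (i : Fin 4) : V →L[ℝ] ℝ :=
  Complex.imCLM.comp (ContinuousLinearMap.proj (R := ℝ) (φ := fun _ : Fin 4 => ℂ) i)

theorem X_inj {e d : ℝ} (he : e * e = 1) (hd : d * d = 1) (w u : V)
    (h : fderiv ℝ (X e d) w u = 0) : u = 0 := by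
  have hk : ∀ i, ((ContinuousLinearMap.proj (R := ℝ) (φ := fun _ : Fin 10 => ℝ) i).comp
      (fderiv ℝ (X e d) w)) u = 0 := by
    intro i
    simp [h]
  have ha := na_nonneg w
  have hb := nb_nonneg w
  have fa : HasFDerivAt (fun w => 1 + e * X e d w 3) _ w := ((hasF e d w 3).const_mul e).const_add 1
  have fb : HasFDerivAt (fun w => 1 + d * X e d w 9) _ w := ((hasF e d w 9).const_mul d).const_add 1
  have ga : ∀ w, 1 + e * X e d w 3 = 2 * (1 + na w)⁻¹ := by
    intro w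
    have h1 : (1 + na w) ≠ 0 := by have := na_nonneg w; positivity
    simp only [X]
    dsimp
    field_simp
    linear_combination (1 - na w) * he
  have gb : ∀ w, 1 + d * X e d w 9 = 2 * (1 + nb w)⁻¹ := by
    intro w
    have h1 : (1 + nb w) ≠ 0 := by have := nb_nonneg w; positivity
    simp only [X]
    dsimp
    field_simp
    linear_combination (1 - nb w) * hd
  have na0 : 1 + e * X e d w 3 ≠ 0 := by rw [ga]; positivity
  have nb0 : 1 + d * X e d w 9 ≠ 0 := by rw [gb]; positivity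
  have a1 : cre 0 u = 0 := coord_zero (cre 0) _ (fun w => e * X e d w 0) _ _ w u fa
    ((hasF e d w 0).const_mul e) (by simp [h]) (by simp [h]) (fun w => by
      rw [ga]; simp only [X, cre]; dsimp; linear_combination (-2 * (w 0).re * (1 + na w)⁻¹) * he) na0
  have a2 : cim 0 u = 0 := coord_zero (cim 0) _ (fun w => X e d w 1) _ _ w u fa
    (hasF e d w 1) (by simp [h]) (by simp [h]) (fun w => by
      rw [ga]; simp only [X, cim]; dsimp; ring) na0
  have a3 : cre 1 u = 0 := coord_zero (cre 1) _ (fun w => X e d w 2) _ _ w u fa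
    (hasF e d w 2) (by simp [h]) (by simp [h]) (fun w => by
      rw [ga]; simp only [X, cre]; dsimp; ring) na0
  have b1 : cim 1 u = 0 := coord_zero (cim 1) _ (fun w => X e d w 4) _ _ w u fb
    (hasF e d w 4) (by simp [h]) (by simp [h]) (fun w => by
      rw [gb]; simp only [X, cim]; dsimp; ring) nb0
  have b2 : cre 2 u = 0 := coord_zero (cre 2) _ (fun w => d * X e d w 5) _ _ w u fb
    ((hasF e d w 5).const_mul d) (by simp [h]) (by simp [h]) (fun w => by
      rw [gb]; simp only [X, cre]; dsimp; linear_combination (-2 * (w 2).re * (1 + nb w)⁻¹) * hd) nb0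
  have b3 : cim 2 u = 0 := coord_zero (cim 2) _ (fun w => X e d w 6) _ _ w u fb
    (hasF e d w 6) (by simp [h]) (by simp [h]) (fun w => by
      rw [gb]; simp only [X, cim]; dsimp; ring) nb0
  have b4 : cre 3 u = 0 := coord_zero (cre 3) _ (fun w => X e d w 7) _ _ w u fb
    (hasF e d w 7) (by simp [h]) (by simp [h]) (fun w => by
      rw [gb]; simp only [X, cre]; dsimp; ring) nb0
  have b5 : cim 3 u = 0 := coord_zero (cim 3) _ (fun w => X e d w 8) _ _ w u fb
    (hasF e d w 8) (by simp [h]) (by simp [h]) (fun w => by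
      rw [gb]; simp only [X, cim]; dsimp; ring) nb0
  ext i
  fin_cases i <;> apply Complex.ext <;> assumption

theorem T0_inj {e d : ℝ} (he : e * e = 1) (hd : d * d = 1) (w u : V)
    (h : T0 e d w u = 0) : u = 0 := X_inj he hd w u (tau_inj he hd w u h)

theorem T0_det_ne {e d : ℝ} (he : e * e = 1) (hd : d * d = 1) (w : V) :
    (T0 e d w).det ≠ 0 := by
  have hinj : Function.Injective (T0 e d w : V →ₗ[ℝ] V) := by
    rw [← LinearMap.ker_eq_bot, LinearMap.ker_eq_bot']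
    intro m hm
    exact T0_inj he hd w m hm
  have := LinearEquiv.isUnit_det' (LinearEquiv.ofInjectiveEndo (T0 e d w : V →ₗ[ℝ] V) hinj)
  exact this.ne_zero

/-! ### Changes of the parametrisation -/

theorem na_invA (w : V) : na (invA w) = (na w)⁻¹ := by
  rcases eq_or_ne (na w) 0 with h | h
  · simp [na, invA] at h ⊢
    simp [h]
  · have : na w = (w 0).re ^ 2 + (w 0).im ^ 2 + (w 1).re ^ 2 := rfl
    simp only [invA]
    simp only [na]
    simp
    rw [this] at h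
    field_simp

theorem nb_invA (w : V) : nb (invA w) = nb w := by
  simp [nb, invA]

theorem na_invB (w : V) : na (invB w) = na w := by
  simp [na, invB]

theorem nb_invB (w : V) : nb (invB w) = (nb w)⁻¹ := by
  rcases eq_or_ne (nb w) 0 with h | h
  · simp [nb, invB] at h ⊢
    simp [h]
  · have : nb w = (w 1).im ^ 2 + (w 2).re ^ 2 + (w 2).im ^ 2 + (w 3).re ^ 2 + (w 3).im ^ 2 := rfl
    simp only [invB]
    simp only [nb]
    simp
    rw [this] at h
    field_simp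

theorem X_invA (e d : ℝ) {w : V} (h : na w ≠ 0) : X e d w = X (-e) d (invA w) := by
  have h1 := na_nonneg w
  have h2 : 1 + na w ≠ 0 := by positivity
  have h3 : na w + 1 ≠ 0 := by positivity
  ext i
  fin_cases i <;> simp only [X, na_invA, nb_invA] <;> dsimp
  · simp only [invA]
    simp
    field_simp
    ring
  · simp only [invA]
    simp
    field_simp
    ring
  · simp only [invA]
    simp
    field_simp
    ring
  · field_simp
    ring
  all_goals simp [invA]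

theorem X_invB (e d : ℝ) {w : V} (h : nb w ≠ 0) : X e d w = X e (-d) (invB w) := by
  have h1 := nb_nonneg w
  have h2 : 1 + nb w ≠ 0 := by positivity
  have h3 : nb w + 1 ≠ 0 := by positivity
  ext i
  fin_cases i <;> simp only [X, na_invB, nb_invB] <;> dsimp
  · simp [invB]
  · simp [invB]
  · simp [invB]
  · simp only [invB]
    simp
    field_simp
    ring
  · simp only [invB]
    simp
    field_simp
    ring
  · simp only [invB]
    simp
    field_simp
    ring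
  · simp only [invB]
    simp
    field_simp
    ring
  · simp only [invB]
    simp
    field_simp
    ring
  · field_simp
    ring

theorem X_invAB (e d : ℝ) {w : V} (ha : na w ≠ 0) (hb : nb w ≠ 0) :
    X e d w = X (-e) (-d) (invA (invB w)) := by
  rw [X_invB e d hb, X_invA e (-d) (by rwa [na_invB])]

/-- signs of the three charts -/
def sgA : Fin 3 → ℝ := ![-1, 1, -1]
def sgB : Fin 3 → ℝ := ![1, -1, -1]

theorem sgA_sq (c : Fin 3) : sgA c * sgA c = 1 := by fin_cases c <;> simp [sgA]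
theorem sgB_sq (c : Fin 3) : sgB c * sgB c = 1 := by fin_cases c <;> simp [sgB]

theorem X_fromW (c : Fin 3) : ∀ w ∈ rngW (Sum.inr c),
    X 1 1 w = X (sgA c) (sgB c) (fromW (Sum.inr c) w) := by
  intro w hw
  fin_cases c
  · exact X_invA 1 1 hw
  · exact X_invB 1 1 hw
  · exact X_invAB 1 1 hw.1 hw.2

theorem X_tr (c d : Fin 3) : ∀ q ∈ O (Sum.inr c) (Sum.inr d),
    X (sgA c) (sgB c) q = X (sgA d) (sgB d) (tr (Sum.inr c) (Sum.inr d) q) := by
  intro q hq
  fin_cases c <;> fin_cases d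
  · rfl
  · have hq' : na q ≠ 0 ∧ nb q ≠ 0 := hq
    have := X_invAB (-1) 1 hq'.1 hq'.2
    rw [neg_neg] at this
    exact this
  · have hq' : nb q ≠ 0 := hq
    exact X_invB (-1) 1 hq'
  · have hq' : na q ≠ 0 ∧ nb q ≠ 0 := hq
    have := X_invAB 1 (-1) hq'.1 hq'.2
    rw [neg_neg] at this
    exact this
  · rfl
  · have hq' : na q ≠ 0 := hq
    exact X_invA 1 (-1) hq'
  · have hq' : nb q ≠ 0 := hq
    have := X_invB (-1) (-1) hq'
    rw [neg_neg] at this
    exact this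
  · have hq' : na q ≠ 0 := hq
    have := X_invA (-1) (-1) hq'
    rw [neg_neg] at this
    exact this
  · rfl

/-- chain rule -/
theorem T0_comp {e d e' d' : ℝ} {g : V → V} {w : V} (hg : DifferentiableAt ℝ g w)
    (h : ∀ᶠ y in 𝓝 w, X e d y = X e' d' (g y)) :
    T0 e d w = (T0 e' d' (g w)).comp (fderiv ℝ g w) := by
  have h1 : fderiv ℝ (X e d) w = (fderiv ℝ (X e' d') (g w)).comp (fderiv ℝ g w) := by
    have h2 : X e d =ᶠ[𝓝 w] (X e' d' ∘ g) := h
    rw [h2.fderiv_eq, fderiv_comp w (((cd_X 1 e' d').differentiable (by simp)) (g w)) hg]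
  have h3 : X e d w = X e' d' (g w) := h.self_of_nhds
  rw [T0, T0, h1, h3, ContinuousLinearMap.comp_assoc]

theorem isOpen_rngW (c : Fin 3) : IsOpen (rngW (Sum.inr c)) := by
  have h1 : IsOpen {w : V | na w ≠ 0} := isOpen_ne_fun (cd_na 0).continuous continuous_const
  have h2 : IsOpen {w : V | nb w ≠ 0} := isOpen_ne_fun (cd_nb 0).continuous continuous_const
  fin_cases c
  · exact h1
  · exact h2
  · exact h1.inter h2

/-- the change of coordinates used for `fromW` occurs as a transition between two charts -/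
theorem fromW_tr (c : Fin 3) : ∃ a b : Fin 3, rngW (Sum.inr c) = O (Sum.inr a) (Sum.inr b) ∧
    fromW (Sum.inr c) = tr (Sum.inr a) (Sum.inr b) := by
  fin_cases c
  · exact ⟨1, 2, rfl, rfl⟩
  · exact ⟨0, 2, rfl, rfl⟩
  · exact ⟨0, 1, rfl, rfl⟩

theorem pos_of_ne {f : V → ℝ} (hf : Continuous f) (hne : ∀ w, f w ≠ 0) {w0 : V} (h0 : 0 < f w0)
    (w : V) : 0 < f w := by
  by_contra hw
  push Not at hw
  obtain ⟨y, hy⟩ := mem_range_of_exists_le_of_exists_ge hf ⟨w, hw⟩ ⟨w0, h0.le⟩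
  exact hne y hy

theorem taskFrame (hS : TaskSmooth) : TaskFrame := by
  have h1 : (1 : ℝ) * 1 = 1 := one_mul 1
  -- the inverse of the frame at zero
  have hinj : Function.Injective (T0 1 1 0 : V →ₗ[ℝ] V) := by
    rw [← LinearMap.ker_eq_bot, LinearMap.ker_eq_bot']
    intro m hm
    exact T0_inj h1 h1 0 m hm
  let L : V ≃L[ℝ] V := (LinearEquiv.ofInjectiveEndo (T0 1 1 0 : V →ₗ[ℝ] V) hinj).toContinuousLinearEquiv
  have hL : (L : V →L[ℝ] V) = T0 1 1 0 := by
    ext v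
    rfl
  let K : V →L[ℝ] V := (L.symm : V →L[ℝ] V)
  have hK : K.comp (T0 1 1 0) = ContinuousLinearMap.id ℝ V := by
    rw [← hL]
    ext v : 1
    exact L.symm_apply_apply v
  have hKdet : K.det ≠ 0 := by
    intro h
    have h2 := congrArg ContinuousLinearMap.det hK
    have h3 : (K.comp (T0 1 1 0)).det = K.det * (T0 1 1 0).det := LinearMap.det_comp _ _
    have h4 : (ContinuousLinearMap.id ℝ V).det = 1 := LinearMap.det_id
    rw [h3, h4, h, zero_mul] at h2
    exact zero_ne_one h2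
  let T : V → V →L[ℝ] V := fun w => K.comp (T0 1 1 w)
  let TA : Fin 3 → V → V →L[ℝ] V := fun c w => K.comp (T0 (sgA c) (sgB c) w)
  have sm : ∀ e d : ℝ, ContDiff ℝ ∞ (fun w => K.comp (T0 e d w)) := fun e d =>
    contDiff_const.clm_comp (cd_T0 e d)
  have dc : ∀ e d : ℝ, ∀ w, (K.comp (T0 e d w)).det = K.det * (T0 e d w).det :=
    fun e d w => LinearMap.det_comp _ _
  have T0' : T 0 = ContinuousLinearMap.id ℝ V := hK
  have hcompat : ∀ c : Fin 3, ∀ w ∈ rngW (Sum.inr c),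
      T w = (TA c (fromW (Sum.inr c) w)).comp (fderiv ℝ (fromW (Sum.inr c)) w) := by
    intro c w hw
    obtain ⟨a, b, hab, hab'⟩ := fromW_tr c
    have hdiff : DifferentiableAt ℝ (fromW (Sum.inr c)) w := by
      rw [hab']
      exact ((hS (Sum.inr a) (Sum.inr b)).2.2.1.differentiableOn (by simp)).differentiableAt
        ((hS (Sum.inr a) (Sum.inr b)).1.mem_nhds (hab ▸ hw))
    show K.comp (T0 1 1 w) = (K.comp (T0 (sgA c) (sgB c) (fromW (Sum.inr c) w))).comp _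
    rw [ContinuousLinearMap.comp_assoc, ← T0_comp hdiff]
    filter_upwards [(isOpen_rngW c).mem_nhds hw] with y hy
    exact X_fromW c y hy
  have hTdet : ∀ w, 0 < (T w).det := by
    have hc : Continuous fun w => (T w).det :=
      ContinuousLinearMap.continuous_det.comp (sm 1 1).continuous
    refine pos_of_ne hc ?_ (w0 := 0) ?_
    · intro w
      show (K.comp (T0 1 1 w)).det ≠ 0
      rw [dc]
      exact mul_ne_zero hKdet (T0_det_ne h1 h1 w)
    · rw [T0']
      have h4 : (ContinuousLinearMap.id ℝ V).det = 1 := LinearMap.det_id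
      rw [h4]
      exact one_pos
  refine ⟨T, TA, ?_, ?_, T0', hTdet, ?_, hcompat, ?_⟩
  · exact sm 1 1
  · exact fun c => sm _ _
  · intro c
    have hc : Continuous fun w => (TA c w).det :=
      ContinuousLinearMap.continuous_det.comp (sm _ _).continuous
    obtain ⟨a, b, hab, hab'⟩ := fromW_tr c
    obtain ⟨w0, hw0⟩ := (hS (Sum.inr a) (Sum.inr b)).2.1
    have hw0' : w0 ∈ rngW (Sum.inr c) := by rw [hab]; exact hw0
    have hd := (hS (Sum.inr a) (Sum.inr b)).2.2.2.2 w0 hw0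
    rw [← hab'] at hd
    have h5 := hTdet w0
    rw [hcompat c w0 hw0'] at h5
    have h6 : ((TA c (fromW (Sum.inr c) w0)).comp (fderiv ℝ (fromW (Sum.inr c)) w0)).det =
      (TA c (fromW (Sum.inr c) w0)).det * (fderiv ℝ (fromW (Sum.inr c)) w0).det :=
        LinearMap.det_comp _ _
    rw [h6] at h5
    refine pos_of_ne hc ?_ (w0 := fromW (Sum.inr c) w0) (pos_of_mul_pos_left h5 hd.le)
    intro w
    show (K.comp (T0 _ _ w)).det ≠ 0
    rw [dc]
    exact mul_ne_zero hKdet (T0_det_ne (sgA_sq c) (sgB_sq c) w)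
  · intro c d q hq
    have hdiff : DifferentiableAt ℝ (tr (Sum.inr c) (Sum.inr d)) q :=
      ((hS (Sum.inr c) (Sum.inr d)).2.2.1.differentiableOn (by simp)).differentiableAt
        ((hS (Sum.inr c) (Sum.inr d)).1.mem_nhds hq)
    show K.comp (T0 _ _ q) = (K.comp (T0 (sgA d) (sgB d) (tr (Sum.inr c) (Sum.inr d) q))).comp _
    rw [ContinuousLinearMap.comp_assoc, ← T0_comp hdiff]
    filter_upwards [(hS (Sum.inr c) (Sum.inr d)).1.mem_nhds hq] with y hy
    exact X_tr c d y hy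

end Pool.Agent.TH348.SD
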